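import Pool.Agent.N581.Hole.Half

/-!
# Topology of the thin half-annuli
-/

open Filter Topology Finset

namespace Pool.Agent.N581.Hole

lemma halfAnnulus_isCompact (δ : ℝ) : IsCompact (halfAnnulus δ) := by
  have h1 : IsClosed (halfAnnulus δ) := by
    unfold halfAnnulus
    refine (isClosed_le continuous_const continuous_norm).inter
      ((isClosed_le continuous_norm continuous_const).inter
        (isClosed_le continuous_const Complex.continuous_re))
  refine Metric.isCompact_of_isClosed_isBounded h1 ?_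
  refine (Metric.isBounded_closedBall (x := (0 : ℂ)) (r := 1)).subset ?_
  rintro z ⟨_, hz, _⟩
  simpa using hz

lemma halfAnnulus_interior {δ : ℝ} (hδ : 0 < δ) : (interior (halfAnnulus δ)).Nonempty := by
  refine ⟨(Real.exp (-δ / 2) : ℝ), mem_interior.2
    ⟨{z | Real.exp (-δ) < ‖z‖ ∧ ‖z‖ < 1 ∧ 0 < z.re}, ?_, ?_, ?_⟩⟩
  · rintro z ⟨h1, h2, h3⟩
    exact ⟨h1.le, h2.le, h3.le⟩
  · exact (isOpen_lt continuous_const continuous_norm).inter
      ((isOpen_lt continuous_norm continuous_const).inter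
        (isOpen_lt continuous_const Complex.continuous_re))
  · refine ⟨?_, ?_, ?_⟩
    · rw [Complex.norm_real, Real.norm_of_nonneg (Real.exp_pos _).le]
      exact Real.exp_lt_exp.2 (by linarith)
    · rw [Complex.norm_real, Real.norm_of_nonneg (Real.exp_pos _).le]
      simpa using Real.exp_lt_exp.2 (show -δ / 2 < 0 by linarith)
    · rw [Complex.ofReal_re]; exact Real.exp_pos _

/-- polar coordinates on the half-annulus. -/
noncomputable def haMap (δ : ℝ) (hδ : 0 < δ) (p : unitInterval × unitInterval) : halfAnnulus δ :=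
  ⟨Complex.exp (((-δ * (p.1 : ℝ) : ℝ) : ℂ) + ((Real.pi * ((p.2 : ℝ) - 1 / 2) : ℝ) : ℂ) * Complex.I), by
    obtain ⟨⟨s, hs0, hs1⟩, ⟨t, ht0, ht1⟩⟩ := p
    simp only
    have hn : ‖Complex.exp (((-δ * s : ℝ) : ℂ) + ((Real.pi * (t - 1 / 2) : ℝ) : ℂ) * Complex.I)‖
        = Real.exp (-δ * s) := by
      rw [Complex.exp_add, norm_mul, Complex.norm_exp_ofReal_mul_I, mul_one, Complex.norm_exp_ofReal]
    refine ⟨?_, ?_, ?_⟩
    · rw [hn]; exact Real.exp_le_exp.2 (by nlinarith)
    · rw [hn]; exact Real.exp_le_one_iff.2 (by nlinarith)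
    · rw [Complex.exp_add, ← Complex.ofReal_exp, Complex.re_ofReal_mul,
        Complex.exp_ofReal_mul_I_re]
      refine mul_nonneg (Real.exp_pos _).le ?_
      apply Real.cos_nonneg_of_neg_pi_div_two_le_of_le
      · nlinarith [Real.pi_pos]
      · nlinarith [Real.pi_pos]⟩

lemma haMap_continuous {δ : ℝ} (hδ : 0 < δ) : Continuous (haMap δ hδ) := by
  unfold haMap
  refine Continuous.subtype_mk ?_ _
  fun_prop

lemma haMap_injective {δ : ℝ} (hδ : 0 < δ) : Function.Injective (haMap δ hδ) := by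
  rintro ⟨⟨s, hs0, hs1⟩, ⟨t, ht0, ht1⟩⟩ ⟨⟨s', hs0', hs1'⟩, ⟨t', ht0', ht1'⟩⟩ h
  have h' := congrArg Subtype.val h
  simp only [haMap] at h'
  have hpi := Real.pi_pos
  have := Complex.exp_inj_of_neg_pi_lt_of_le_pi (x := ((-δ * s : ℝ) : ℂ) +
      ((Real.pi * (t - 1 / 2) : ℝ) : ℂ) * Complex.I)
      (y := ((-δ * s' : ℝ) : ℂ) + ((Real.pi * (t' - 1 / 2) : ℝ) : ℂ) * Complex.I)
      (by simp only [Complex.add_im, Complex.ofReal_im, Complex.mul_im, Complex.ofReal_re, Complex.I_im, Complex.I_re, mul_one, mul_zero, add_zero, zero_add]; nlinarith)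
      (by simp only [Complex.add_im, Complex.ofReal_im, Complex.mul_im, Complex.ofReal_re, Complex.I_im, Complex.I_re, mul_one, mul_zero, add_zero, zero_add]; nlinarith)
      (by simp only [Complex.add_im, Complex.ofReal_im, Complex.mul_im, Complex.ofReal_re, Complex.I_im, Complex.I_re, mul_one, mul_zero, add_zero, zero_add]; nlinarith)
      (by simp only [Complex.add_im, Complex.ofReal_im, Complex.mul_im, Complex.ofReal_re, Complex.I_im, Complex.I_re, mul_one, mul_zero, add_zero, zero_add]; nlinarith)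
      h'
  have hre := congrArg Complex.re this
  have him := congrArg Complex.im this
  simp only [Complex.add_im, Complex.ofReal_im, Complex.mul_im, Complex.ofReal_re, Complex.I_im,
    Complex.I_re, mul_one, mul_zero, add_zero, zero_add, Complex.add_re, Complex.mul_re, sub_zero] at hre him
  have e1 : s = s' := by
    have : -δ ≠ 0 := by linarith
    exact mul_left_cancel₀ this hre
  have e2 : t = t' := by
    have := mul_left_cancel₀ hpi.ne' him
    linarith
  subst e1 e2
  rfl

lemma haMap_surjective {δ : ℝ} (hδ : 0 < δ) : Function.Surjective (haMap δ hδ) := by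
  rintro ⟨z, hz1, hz2, hz3⟩
  have hpos : 0 < ‖z‖ := lt_of_lt_of_le (Real.exp_pos _) hz1
  have hz0 : z ≠ 0 := norm_pos_iff.1 hpos
  have hpi := Real.pi_pos
  have hl1 : -δ ≤ Real.log ‖z‖ := by
    rw [← Real.log_exp (-δ)]
    exact Real.log_le_log (Real.exp_pos _) hz1
  have hl2 : Real.log ‖z‖ ≤ 0 := Real.log_nonpos hpos.le hz2
  have harg := Complex.abs_arg_le_pi_div_two_iff.2 hz3
  rw [abs_le] at harg
  refine ⟨(⟨-Real.log ‖z‖ / δ, ?_, ?_⟩, ⟨z.arg / Real.pi + 1 / 2, ?_, ?_⟩), ?_⟩
  · exact div_nonneg (by linarith) hδ.le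
  · rw [div_le_one hδ]; linarith
  · have : -(1/2) ≤ z.arg / Real.pi := by
      rw [le_div_iff₀ hpi]; linarith [harg.1]
    linarith
  · have : z.arg / Real.pi ≤ 1/2 := by
      rw [div_le_iff₀ hpi]; linarith [harg.2]
    linarith
  · apply Subtype.ext
    simp only [haMap]
    have e1 : -δ * (-Real.log ‖z‖ / δ) = Real.log ‖z‖ := by field_simp
    have e2 : Real.pi * (z.arg / Real.pi + 1 / 2 - 1 / 2) = z.arg := by field_simp; ring
    rw [e1, e2]
    have := Complex.exp_log hz0
    rwa [Complex.log] at this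

/-- the half-annulus is homeomorphic to the closed unit square. -/
theorem halfAnnulus_homeo {δ : ℝ} (hδ : 0 < δ) :
    Nonempty ((unitInterval × unitInterval) ≃ₜ halfAnnulus δ) :=
  ⟨Continuous.homeoOfEquivCompactToT2
    (f := Equiv.ofBijective (haMap δ hδ) ⟨haMap_injective hδ, haMap_surjective hδ⟩)
    (haMap_continuous hδ)⟩

lemma halfAnnulus_isConnected {δ : ℝ} (hδ : 0 < δ) : IsConnected (halfAnnulus δ) := by
  rw [isConnected_iff_connectedSpace]
  obtain ⟨e⟩ := halfAnnulus_homeo hδ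
  exact e.surjective.connectedSpace e.continuous

end Pool.Agent.N581.Hole
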