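import Pool.Agent.N581.Hole.Prob
import Pool.Agent.N581.Hole.Topo

/-!
# Asymptotics of the hole exponent of a thin half-annulus
-/

open Filter Topology MeasureTheory ProbabilityTheory Asymptotics
open scoped ENNReal

namespace Pool.Agent.N581.Hole

/-- the remainder is of smaller order. -/
lemma eventually_small (δ : ℝ) (hδ : 0 < δ) :
    ∀ᶠ x : ℝ in atTop, 8 * (x + 1) * (8 + 2 * Real.log (x + 1)) + 2 * δ * (4 * δ * x + 1) ^ 2 + 5
      ≤ 64 * δ ^ 3 * x ^ 2 := by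
  have hid : (fun x : ℝ => x) =O[atTop] (fun x : ℝ => x) := isBigO_refl _ _
  have hc : ∀ c : ℝ, (fun _ : ℝ => c) =o[atTop] (fun x : ℝ => x) := fun c =>
    isLittleO_const_id_atTop c
  have h1 : (fun x : ℝ => x + 1) =O[atTop] (fun x : ℝ => x) := hid.add (hc 1).isBigO
  have h2 : (fun x : ℝ => Real.log (x + 1)) =o[atTop] (fun x : ℝ => x) :=
    (Real.isLittleO_log_id_atTop.comp_tendsto (tendsto_atTop_add_const_right _ 1 tendsto_id)).trans_isBigO h1
  have h3 : (fun x : ℝ => 8 + 2 * Real.log (x + 1)) =o[atTop] (fun x : ℝ => x) :=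
    (hc 8).add (h2.const_mul_left 2)
  have h4 : (fun x : ℝ => (8 * (x + 1)) * (8 + 2 * Real.log (x + 1))) =o[atTop]
      (fun x : ℝ => x * x) := (h1.const_mul_left 8).mul_isLittleO h3
  have h5 : (fun x : ℝ => (2 * δ * (8 * δ * x + 1)) * 1) =o[atTop] (fun x : ℝ => x * x) := by
    refine IsBigO.mul_isLittleO ?_ (hc 1)
    exact ((hid.const_mul_left (8 * δ)).add (hc 1).isBigO).const_mul_left (2 * δ)
  have h6 : (fun x : ℝ => (1 : ℝ) * 5) =o[atTop] (fun x : ℝ => x * x) :=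
    (hc 1).mul_isBigO (hc 5).isBigO
  have h7 := ((h4.add h5).add h6).bound (c := 32 * δ ^ 3) (by positivity)
  filter_upwards [h7, eventually_ge_atTop 0] with x hx hx0
  rw [Real.norm_eq_abs, Real.norm_eq_abs, abs_of_nonneg (mul_nonneg hx0 hx0)] at hx
  have := (le_abs_self _).trans hx
  nlinarith

lemma neg_log_LL_le {δ r : ℝ} (hδ : 0 ≤ δ) :
    -Real.log (LL δ ⌊r ^ 2⌋₊ ⌈4 * δ * ⌊r ^ 2⌋₊⌉₊) ≤
      8 * (r ^ 2 + 1) * (8 + 2 * Real.log (r ^ 2 + 1)) + 2 * δ * (4 * δ * r ^ 2 + 1) ^ 2 + 5 := by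
  set N := ⌊r ^ 2⌋₊ with hN
  set W := ⌈4 * δ * (N : ℝ)⌉₊ with hW
  have hNr : (N : ℝ) ≤ r ^ 2 := Nat.floor_le (by positivity)
  have hN0 : (0 : ℝ) ≤ N := Nat.cast_nonneg N
  have hW0 : (0 : ℝ) ≤ W := Nat.cast_nonneg W
  have hWr : (W : ℝ) ≤ 4 * δ * r ^ 2 + 1 := by
    have h1 := (Nat.ceil_lt_add_one (by positivity : 0 ≤ 4 * δ * (N : ℝ))).le
    have : 4 * δ * (N : ℝ) ≤ 4 * δ * r ^ 2 := by gcongr
    linarith
  unfold LL
  have e1 : (1 / (16 * (8 * ((N : ℝ) + 1)) ^ 2) * Real.exp (-1)) ≠ 0 := by positivity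
  rw [Real.log_mul (by positivity) (by norm_num), Real.log_mul (by positivity) (by positivity),
    Real.log_mul (x := Real.exp (-(2 * δ * W)) ^ W) (by positivity) (by positivity),
    Real.log_pow, Real.log_pow, Real.log_exp,
    Real.log_mul (x := 3) (by norm_num) (by positivity), Real.log_exp,
    Real.log_mul (by positivity) (by positivity), Real.log_exp, one_div, Real.log_inv,
    one_div, Real.log_inv]
  have h2 : Real.log (16 * (8 * ((N : ℝ) + 1)) ^ 2) ≤ 7 + 2 * Real.log (r ^ 2 + 1) := by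
    have e2 : 16 * (8 * ((N : ℝ) + 1)) ^ 2 = 1024 * ((N : ℝ) + 1) ^ 2 := by ring
    rw [e2, Real.log_mul (by norm_num) (by positivity), Real.log_pow]
    have h3 : Real.log ((N : ℝ) + 1) ≤ Real.log (r ^ 2 + 1) :=
      Real.log_le_log (by positivity) (by linarith)
    have h4 : Real.log 1024 ≤ 7 := by
      have : (1024 : ℝ) = 2 ^ (10 : ℕ) := by norm_num
      rw [this, Real.log_pow]
      have := Real.log_two_lt_d9
      push_cast
      linarith
    push_cast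
    linarith
  have hl0 : 0 ≤ Real.log (r ^ 2 + 1) := Real.log_nonneg (by nlinarith)
  have h5 : 8 * ((N : ℝ) + 1) * (Real.log (16 * (8 * ((N : ℝ) + 1)) ^ 2) + 1) ≤
      8 * (r ^ 2 + 1) * (8 + 2 * Real.log (r ^ 2 + 1)) := by
    have h6 : Real.log (16 * (8 * ((N : ℝ) + 1)) ^ 2) + 1 ≤ 8 + 2 * Real.log (r ^ 2 + 1) := by linarith
    calc 8 * ((N : ℝ) + 1) * (Real.log (16 * (8 * ((N : ℝ) + 1)) ^ 2) + 1)
        ≤ 8 * ((N : ℝ) + 1) * (8 + 2 * Real.log (r ^ 2 + 1)) := by gcongr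
      _ ≤ _ := by gcongr
  have h7 : 2 * δ * (W : ℝ) * W ≤ 2 * δ * (4 * δ * r ^ 2 + 1) ^ 2 := by
    have : (W : ℝ) * W ≤ (4 * δ * r ^ 2 + 1) ^ 2 := by nlinarith
    calc 2 * δ * (W : ℝ) * W = 2 * δ * ((W : ℝ) * W) := by ring
      _ ≤ _ := by gcongr
  have h8 : Real.log 2 ≤ 1 := by have := Real.log_two_lt_d9; linarith
  have h9 : 0 ≤ Real.log 3 := Real.log_nonneg (by norm_num)
  push_cast
  nlinarith

/-- `P(f has no zero in rK)`, where `rK = {r z : z ∈ K}`. -/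
noncomputable def holeProb {Ω : Type*} [MeasurableSpace Ω] (P : Measure Ω) (ξ : ℕ → Ω → ℂ)
    (K : Set ℂ) (r : ℝ) : ℝ :=
  P.real {ω | ∀ z ∈ K, gef ξ ω ((r : ℂ) * z) ≠ 0}

/-- The hole probability exponent `p_{H,K}(f; r) = -log P(f ≠ 0 on rK)`. -/
noncomputable def holeExp {Ω : Type*} [MeasurableSpace Ω] (P : Measure Ω) (ξ : ℕ → Ω → ℂ)
    (K : Set ℂ) (r : ℝ) : ℝ :=
  -Real.log (holeProb P ξ K r)

/-- `S(r) = 2 ∑_{n ≥ 0} log⁺ (r^n / √(n!))`. -/
noncomputable def SS (r : ℝ) : ℝ :=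
  2 * ∑' n : ℕ, Real.posLog (r ^ n / Real.sqrt (n.factorial : ℝ))

variable {Ω : Type*} [MeasurableSpace Ω] {P : Measure Ω} [IsProbabilityMeasure P] {ξ : ℕ → Ω → ℂ}

lemma LL_le_holeProb (h : IsGaussianSeq P ξ) {r δ : ℝ} (hr : 0 < r) (hδ : 0 ≤ δ) :
    LL δ ⌊r ^ 2⌋₊ ⌈4 * δ * ⌊r ^ 2⌋₊⌉₊ ≤ holeProb P ξ (halfAnnulus δ) r := by
  refine (LL_le_prob h hr (Nat.lt_floor_add_one _).le (Nat.floor_le (by positivity)) hδ
    (Nat.le_ceil _)).trans ?_
  unfold holeProb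
  apply measureReal_mono
  · intro ω hω z hz
    have hn : ‖(r : ℂ) * z‖ = r * ‖z‖ := by
      rw [norm_mul, Complex.norm_real, Real.norm_of_nonneg hr.le]
    apply hω
    · rw [hn, mul_comm]; exact mul_le_mul_of_nonneg_left hz.1 hr.le
    · rw [hn]
      calc r * ‖z‖ ≤ r * 1 := mul_le_mul_of_nonneg_left hz.2.1 hr.le
        _ = r := mul_one r
  · exact measure_ne_top _ _

/-- the hole exponent of the thin half-annulus is at most `64 δ³ r⁴` for large `r`. -/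
theorem holeExp_le (h : IsGaussianSeq P ξ) {δ : ℝ} (hδ : 0 < δ) :
    ∀ᶠ r : ℝ in atTop, 0 < holeProb P ξ (halfAnnulus δ) r ∧
      holeExp P ξ (halfAnnulus δ) r ≤ 64 * δ ^ 3 * r ^ 4 := by
  have h1 := (tendsto_pow_atTop (α := ℝ) (n := 2) (by norm_num)).eventually (eventually_small δ hδ)
  filter_upwards [h1, eventually_gt_atTop 0] with r hr hr0
  have h2 := LL_le_holeProb h hr0 hδ.le
  have h3 := LL_pos δ ⌊r ^ 2⌋₊ ⌈4 * δ * ⌊r ^ 2⌋₊⌉₊
  refine ⟨h3.trans_le h2, ?_⟩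
  unfold holeExp
  have h4 := Real.log_le_log h3 h2
  have h5 := neg_log_LL_le (r := r) hδ.le
  have e : r ^ 4 = (r ^ 2) ^ 2 := by ring
  rw [e]
  linarith

lemma posLog_terms_summable (ρ : ℝ) :
    Summable fun n : ℕ => Real.posLog (ρ ^ n / Real.sqrt (n.factorial : ℝ)) := by
  apply summable_of_hasFiniteSupport
  have h1 : Tendsto (fun n : ℕ => (ρ ^ 2) ^ n / (n.factorial : ℝ)) atTop (𝓝 0) :=
    FloorSemiring.tendsto_pow_div_factorial_atTop _
  have h2 : ∀ᶠ n : ℕ in atTop, (ρ ^ 2) ^ n / (n.factorial : ℝ) < 1 :=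
    h1.eventually_lt_const (by norm_num)
  obtain ⟨n0, hn0⟩ := eventually_atTop.1 h2
  refine (Set.finite_lt_nat n0).subset fun n hn => ?_
  by_contra hlt
  simp only [Set.mem_ofPred_eq, not_lt] at hlt
  apply hn
  rw [Real.posLog_eq_zero_iff]
  have h3 := hn0 n hlt
  have hsq : 0 < Real.sqrt (n.factorial : ℝ) := Real.sqrt_pos.2 (by exact_mod_cast n.factorial_pos)
  rw [abs_div, abs_of_pos hsq, div_le_one hsq]
  apply Real.le_sqrt_of_sq_le
  rw [sq_abs, ← pow_mul, mul_comm n 2, pow_mul]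
  rw [div_lt_one (by exact_mod_cast n.factorial_pos)] at h3
  exact h3.le

lemma SS_ge {ρ : ℝ} (hρ : Real.exp 1 * 2 ≤ ρ) : ρ ^ 4 / (2 * Real.exp 4) ≤ SS ρ := by
  have he : 0 < Real.exp 1 := Real.exp_pos 1
  have hρ0 : 0 < ρ := by linarith
  set x := ρ ^ 2 / Real.exp 2 with hx
  have he2 : Real.exp 2 = Real.exp 1 ^ 2 := by rw [← Real.exp_nat_mul]; norm_num
  have he4 : Real.exp 4 = Real.exp 2 ^ 2 := by rw [← Real.exp_nat_mul]; norm_num
  have hx4 : 4 ≤ x := by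
    rw [hx, le_div_iff₀ (Real.exp_pos _), he2]
    nlinarith
  set m := ⌊x⌋₊ with hm
  have hm1 : x < m + 1 := Nat.lt_floor_add_one x
  have hterm : ∀ n ∈ Finset.range (m + 1), (n : ℝ) ≤
      Real.posLog (ρ ^ n / Real.sqrt (n.factorial : ℝ)) := by
    intro n hn
    have hnm : (n : ℝ) ≤ x := by
      have h1 : n ≤ m := Nat.lt_succ_iff.1 (Finset.mem_range.1 hn)
      exact (Nat.cast_le.2 h1).trans (Nat.floor_le (by linarith))
    refine le_trans ?_ (le_max_right (0 : ℝ) _ : _ ≤ Real.posLog (ρ ^ n / Real.sqrt (n.factorial : ℝ)))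
    have hfac : 0 < (n.factorial : ℝ) := by exact_mod_cast n.factorial_pos
    rw [Real.log_div (by positivity) (Real.sqrt_pos.2 hfac).ne', Real.log_pow, Real.log_sqrt hfac.le]
    rcases Nat.eq_zero_or_pos n with rfl | hnpos
    · simp
    · have hn0 : (0 : ℝ) < n := by exact_mod_cast hnpos
      have h2 : Real.log (n.factorial : ℝ) ≤ n * Real.log n := by
        rw [← Real.log_pow]
        apply Real.log_le_log hfac
        exact_mod_cast Nat.factorial_le_pow n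
      have h3 : Real.log n ≤ 2 * Real.log ρ - 2 := by
        have h4 := Real.log_le_log hn0 hnm
        rw [hx, Real.log_div (by positivity) (Real.exp_pos _).ne', Real.log_exp, Real.log_pow] at h4
        push_cast at h4
        exact h4
      nlinarith
  have hsum : ∑ n ∈ Finset.range (m + 1), (n : ℝ) ≤
      ∑' n : ℕ, Real.posLog (ρ ^ n / Real.sqrt (n.factorial : ℝ)) :=
    (Finset.sum_le_sum hterm).trans ((posLog_terms_summable ρ).sum_le_tsum _
      fun n _ => Real.posLog_nonneg)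
  have hgauss : (∑ n ∈ Finset.range (m + 1), (n : ℝ)) * 2 = (m + 1) * m := by
    have := Finset.sum_range_id_mul_two (m + 1)
    have h2 : ((∑ i ∈ Finset.range (m + 1), i : ℕ) : ℝ) * 2 = ((m + 1 : ℕ) : ℝ) * m := by
      have h3 := congrArg (Nat.cast : ℕ → ℝ) this
      push_cast at h3 ⊢
      simpa using h3
    push_cast at h2
    exact h2
  unfold SS
  have h5 : ρ ^ 4 / (2 * Real.exp 4) = x ^ 2 / 2 := by
    rw [hx, he4]; field_simp
  rw [h5]
  nlinarith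

end Pool.Agent.N581.Hole
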