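import Mathlib

/-!
# Transfinite diameter (logarithmic capacity) of a planar compact set
-/

open Filter Topology Finset

namespace Pool.Agent.N581.Hole

/-- The product of the distances `|z i - z j|` over all ordered pairs `i ≠ j`. -/
noncomputable def pairProd {n : ℕ} (z : Fin n → ℂ) : ℝ :=
  ∏ p ∈ (Finset.univ : Finset (Fin n)).offDiag, ‖z p.1 - z p.2‖

/-- The `n`-th diameter of `K`: the supremum over `z_1, …, z_n ∈ K` of the geometric mean
`(∏_{i ≠ j} |z_i - z_j|)^(1/(n(n-1)))` of the mutual distances. -/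
noncomputable def nthDiam (K : Set ℂ) (n : ℕ) : ℝ :=
  sSup {x : ℝ | ∃ z : Fin n → ℂ, (∀ i, z i ∈ K) ∧
    x = pairProd z ^ (1 / ((n : ℝ) * ((n : ℝ) - 1)))}

/-- `c` is the transfinite diameter (logarithmic capacity) of `K`:
the `n`-th diameters of `K` tend to `c`. -/
def IsCapacity (K : Set ℂ) (c : ℝ) : Prop :=
  Tendsto (fun n => nthDiam K n) atTop (𝓝 c)

lemma pairProd_nonneg {n : ℕ} (z : Fin n → ℂ) : 0 ≤ pairProd z :=
  Finset.prod_nonneg fun _ _ => norm_nonneg _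

lemma pairProd_eq_iterated {n : ℕ} (z : Fin n → ℂ) :
    pairProd z = ∏ i, ∏ j ∈ Finset.univ.erase i, ‖z i - z j‖ := by
  classical
  unfold pairProd
  rw [Finset.prod_sigma']
  refine Finset.prod_bij' (fun p _ => ⟨p.1, p.2⟩) (fun p _ => (p.1, p.2)) ?_ ?_ ?_ ?_ ?_
  · rintro ⟨a, b⟩ h
    simp only [Finset.mem_offDiag, Finset.mem_univ, true_and] at h
    simp [Ne.symm h]
  · rintro ⟨a, b⟩ h
    simp only [Finset.mem_sigma, Finset.mem_univ, Finset.mem_erase, true_and, and_true] at h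
    simp [Finset.mem_offDiag, Ne.symm h]
  · rintro ⟨a, b⟩ _; rfl
  · rintro ⟨a, b⟩ _; rfl
  · rintro ⟨a, b⟩ _; rfl

lemma pairProd_le {K : Set ℂ} {D : ℝ} (hD : ∀ x ∈ K, ∀ y ∈ K, ‖x - y‖ ≤ D) {n : ℕ}
    (z : Fin n → ℂ) (hz : ∀ i, z i ∈ K) : pairProd z ≤ D ^ (n * n - n) := by
  unfold pairProd
  calc _ ≤ ∏ p ∈ (Finset.univ : Finset (Fin n)).offDiag, D :=
        Finset.prod_le_prod (fun _ _ => norm_nonneg _) fun p _ => hD _ (hz _) _ (hz _)
    _ = D ^ (n * n - n) := by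
        rw [Finset.prod_const, Finset.offDiag_card, Finset.card_univ, Fintype.card_fin]

/-- double counting: removing one point at a time. -/
lemma prod_pairProd_succAbove {n : ℕ} (z : Fin (n + 2) → ℂ) :
    ∏ k : Fin (n + 2), pairProd (fun i : Fin (n + 1) => z (k.succAbove i)) = pairProd z ^ n := by
  classical
  have h1 : ∀ k : Fin (n + 2), pairProd (fun i : Fin (n + 1) => z (k.succAbove i)) =
      ∏ p ∈ (Finset.univ : Finset (Fin (n + 2))).offDiag,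
        if p.1 ≠ k ∧ p.2 ≠ k then ‖z p.1 - z p.2‖ else 1 := by
    intro k
    rw [Finset.prod_ite, Finset.prod_const_one, mul_one]
    unfold pairProd
    refine Finset.prod_bij (fun p _ => (k.succAbove p.1, k.succAbove p.2)) ?_ ?_ ?_ ?_
    · rintro ⟨a, b⟩ h
      simp only [Finset.mem_offDiag, Finset.mem_univ, true_and] at h
      simp only [Finset.mem_filter, Finset.mem_offDiag, Finset.mem_univ, true_and]
      exact ⟨fun e => h (Fin.succAbove_right_injective e), Fin.succAbove_ne _ _,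
        Fin.succAbove_ne _ _⟩
    · rintro ⟨a, b⟩ _ ⟨c, d⟩ _ h
      simp only [Prod.mk.injEq] at h
      rw [Fin.succAbove_right_injective h.1, Fin.succAbove_right_injective h.2]
    · rintro ⟨a, b⟩ h
      simp only [Finset.mem_filter, Finset.mem_offDiag, Finset.mem_univ, true_and] at h
      obtain ⟨x, hx⟩ := Fin.exists_succAbove_eq h.2.1
      obtain ⟨y, hy⟩ := Fin.exists_succAbove_eq h.2.2
      refine ⟨(x, y), ?_, ?_⟩
      · simp only [Finset.mem_offDiag, Finset.mem_univ, true_and]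
        rintro rfl
        exact h.1 (hx.symm.trans hy)
      · simp [hx, hy]
    · rintro ⟨a, b⟩ _; rfl
  simp_rw [h1]
  rw [Finset.prod_comm]
  unfold pairProd
  rw [← Finset.prod_pow]
  refine Finset.prod_congr rfl ?_
  rintro ⟨a, b⟩ hab
  simp only [Finset.mem_offDiag, Finset.mem_univ, true_and] at hab
  rw [Finset.prod_ite, Finset.prod_const_one, mul_one, Finset.prod_const]
  congr 1
  have : (Finset.univ.filter fun k : Fin (n + 2) => a ≠ k ∧ b ≠ k) =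
      (Finset.univ.erase a).erase b := by
    ext k
    simp only [Finset.mem_filter, Finset.mem_univ, true_and, Finset.mem_erase, and_true]
    constructor
    · rintro ⟨h1, h2⟩; exact ⟨Ne.symm h2, Ne.symm h1⟩
    · rintro ⟨h1, h2⟩; exact ⟨Ne.symm h2, Ne.symm h1⟩
  rw [this, Finset.card_erase_of_mem, Finset.card_erase_of_mem (Finset.mem_univ _),
    Finset.card_univ, Fintype.card_fin]
  · omega
  · simp [Ne.symm hab]

section
variable {K : Set ℂ} {D : ℝ}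

lemma nthDiam_bddAbove (_hD0 : 0 ≤ D) (hD : ∀ x ∈ K, ∀ y ∈ K, ‖x - y‖ ≤ D) (n : ℕ) :
    BddAbove {x : ℝ | ∃ z : Fin n → ℂ, (∀ i, z i ∈ K) ∧
      x = pairProd z ^ (1 / ((n : ℝ) * ((n : ℝ) - 1)))} := by
  refine ⟨(D ^ (n * n - n)) ^ (1 / ((n : ℝ) * ((n : ℝ) - 1))), ?_⟩
  rintro x ⟨z, hz, rfl⟩
  refine Real.rpow_le_rpow (pairProd_nonneg z) (pairProd_le hD z hz) ?_
  rcases Nat.eq_zero_or_pos n with rfl | hn
  · simp
  · have : (1 : ℝ) ≤ n := by exact_mod_cast hn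
    have h2 : (0 : ℝ) ≤ (n : ℝ) * ((n : ℝ) - 1) := mul_nonneg (by linarith) (by linarith)
    positivity

lemma nthDiam_nonneg (K : Set ℂ) (n : ℕ) : 0 ≤ nthDiam K n := by
  apply Real.sSup_nonneg
  rintro x ⟨z, _, rfl⟩
  exact Real.rpow_nonneg (pairProd_nonneg z) _

lemma pairProd_rpow_le_nthDiam (hD0 : 0 ≤ D) (hD : ∀ x ∈ K, ∀ y ∈ K, ‖x - y‖ ≤ D) {n : ℕ}
    (z : Fin n → ℂ) (hz : ∀ i, z i ∈ K) :
    pairProd z ^ (1 / ((n : ℝ) * ((n : ℝ) - 1))) ≤ nthDiam K n :=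
  le_csSup (nthDiam_bddAbove hD0 hD n) ⟨z, hz, rfl⟩

lemma pairProd_le_nthDiam_pow (hD0 : 0 ≤ D) (hD : ∀ x ∈ K, ∀ y ∈ K, ‖x - y‖ ≤ D) {n : ℕ}
    (z : Fin (n + 2) → ℂ) (hz : ∀ i, z i ∈ K) :
    pairProd z ≤ nthDiam K (n + 2) ^ ((n + 2) * (n + 1)) := by
  have h := pairProd_rpow_le_nthDiam hD0 hD z hz
  have h2 := pow_le_pow_left₀ (Real.rpow_nonneg (pairProd_nonneg z) _) h ((n + 2) * (n + 1))
  refine le_trans (le_of_eq ?_) h2
  rw [← Real.rpow_natCast, ← Real.rpow_mul (pairProd_nonneg z)]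
  have : (1 / (((n + 2 : ℕ) : ℝ) * (((n + 2 : ℕ) : ℝ) - 1)) * (((n + 2) * (n + 1) : ℕ) : ℝ)) = 1 := by
    push_cast
    have : (n : ℝ) + 2 ≠ 0 := by positivity
    have h' : (n : ℝ) + 2 - 1 ≠ 0 := by
      have : (0 : ℝ) ≤ n := Nat.cast_nonneg n
      intro h; linarith
    field_simp
    ring
  rw [this, Real.rpow_one]

lemma nthDiam_succ_le (hD0 : 0 ≤ D) (hD : ∀ x ∈ K, ∀ y ∈ K, ‖x - y‖ ≤ D) (n : ℕ) :
    nthDiam K (n + 3) ≤ nthDiam K (n + 2) := by
  refine Real.sSup_le ?_ (nthDiam_nonneg _ _)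
  rintro x ⟨z, hz, rfl⟩
  set d := nthDiam K (n + 2) with hd
  have hd0 : 0 ≤ d := nthDiam_nonneg _ _
  have h1 : pairProd z ^ (n + 1) ≤ (d ^ ((n + 3) * (n + 2))) ^ (n + 1) := by
    rw [← prod_pairProd_succAbove z]
    calc ∏ k : Fin (n + 3), pairProd (fun i : Fin (n + 2) => z (k.succAbove i))
        ≤ ∏ _k : Fin (n + 3), d ^ ((n + 2) * (n + 1)) :=
          Finset.prod_le_prod (fun _ _ => pairProd_nonneg _)
            fun k _ => pairProd_le_nthDiam_pow hD0 hD _ fun i => hz _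
      _ = (d ^ ((n + 3) * (n + 2))) ^ (n + 1) := by
          rw [Finset.prod_const, Finset.card_univ, Fintype.card_fin, ← pow_mul, ← pow_mul]
          congr 1
          ring
  have h2 : pairProd z ≤ d ^ ((n + 3) * (n + 2)) :=
    le_of_pow_le_pow_left₀ (Nat.succ_ne_zero n) (by positivity) h1
  have h3 : (0 : ℝ) ≤ 1 / (((n + 3 : ℕ) : ℝ) * (((n + 3 : ℕ) : ℝ) - 1)) := by
    have : (0 : ℝ) ≤ n := Nat.cast_nonneg n
    have : (0 : ℝ) ≤ ((n + 3 : ℕ) : ℝ) - 1 := by push_cast; linarith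
    positivity
  refine (Real.rpow_le_rpow (pairProd_nonneg z) h2 h3).trans (le_of_eq ?_)
  rw [← Real.rpow_natCast, ← Real.rpow_mul hd0]
  have : ((((n + 3) * (n + 2) : ℕ) : ℝ) * (1 / (((n + 3 : ℕ) : ℝ) * (((n + 3 : ℕ) : ℝ) - 1)))) = 1 := by
    push_cast
    have h0 : (0 : ℝ) ≤ n := Nat.cast_nonneg n
    have : (n : ℝ) + 3 ≠ 0 := by positivity
    have h' : (n : ℝ) + 3 - 1 ≠ 0 := by
      intro h; linarith
    field_simp
    ring
  rw [this, Real.rpow_one]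

/-- every bounded set has a transfinite diameter. -/
theorem exists_isCapacity (hD0 : 0 ≤ D) (hD : ∀ x ∈ K, ∀ y ∈ K, ‖x - y‖ ≤ D)
    {b : ℝ} (hb : ∀ n, b ≤ nthDiam K (n + 2)) : ∃ c, IsCapacity K c ∧ b ≤ c := by
  have hanti : Antitone fun n => nthDiam K (n + 2) :=
    antitone_nat_of_succ_le fun n => nthDiam_succ_le hD0 hD n
  have hbdd : BddBelow (Set.range fun n => nthDiam K (n + 2)) :=
    ⟨0, by rintro _ ⟨n, rfl⟩; exact nthDiam_nonneg _ _⟩
  have ht := tendsto_atTop_ciInf hanti hbdd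
  refine ⟨_, (tendsto_add_atTop_iff_nat 2).1 ht, le_ciInf hb⟩

end

end Pool.Agent.N581.Hole
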