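import Mathlib

/-!
# Deterministic estimate: one dominating term
-/

open Filter Topology

namespace Pool.Agent.N581.Hole

/-- the size `s^n/√(n!)` of the `n`-th term. -/
noncomputable def tt (s : ℝ) (n : ℕ) : ℝ := s ^ n / Real.sqrt (n.factorial : ℝ)

lemma tt_pos {s : ℝ} (hs : 0 < s) (n : ℕ) : 0 < tt s n := by
  unfold tt
  have : 0 < Real.sqrt (n.factorial : ℝ) := Real.sqrt_pos.2 (by exact_mod_cast n.factorial_pos)
  positivity

lemma tt_succ (s : ℝ) (n : ℕ) : tt s (n + 1) = tt s n * (s / Real.sqrt ((n : ℝ) + 1)) := by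
  unfold tt
  rw [Nat.factorial_succ]
  push_cast
  rw [Real.sqrt_mul (by positivity), pow_succ]
  have h1 : Real.sqrt (n.factorial : ℝ) ≠ 0 :=
    (Real.sqrt_pos.2 (by exact_mod_cast n.factorial_pos)).ne'
  have h2 : Real.sqrt ((n : ℝ) + 1) ≠ 0 := (Real.sqrt_pos.2 (by positivity)).ne'
  field_simp

variable {r s δ : ℝ} {N : ℕ}

lemma tt_up_step (hs : 0 < s) (hsr : s ≤ r) (hr2 : r ^ 2 ≤ N + 1) {n : ℕ} (hn : N ≤ n) :
    tt s (n + 1) ≤ tt s n := by
  rw [tt_succ]
  have h0 := (tt_pos hs n).le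
  have hs1 : s ≤ Real.sqrt ((n : ℝ) + 1) := by
    apply Real.le_sqrt_of_sq_le
    have h1 : s ^ 2 ≤ r ^ 2 := pow_le_pow_left₀ hs.le hsr 2
    have h2 : (N : ℝ) ≤ n := by exact_mod_cast hn
    linarith
  have : s / Real.sqrt ((n : ℝ) + 1) ≤ 1 :=
    div_le_one_of_le₀ hs1 (Real.sqrt_nonneg _)
  nlinarith

lemma tt_up (hs : 0 < s) (hsr : s ≤ r) (hr2 : r ^ 2 ≤ N + 1) {n : ℕ} (hn : N ≤ n) :
    tt s n ≤ tt s N := by
  obtain ⟨k, rfl⟩ := Nat.exists_eq_add_of_le hn
  induction k with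
  | zero => simp
  | succ k ih =>
    exact (tt_up_step hs hsr hr2 (Nat.le_add_right _ _)).trans (ih (Nat.le_add_right _ _))

lemma tt_far_step (hs : 0 < s) (hsr : s ≤ r) (hr2 : r ^ 2 ≤ N + 1) {n : ℕ} (hn : 4 * (N + 1) ≤ n) :
    tt s (n + 1) ≤ tt s n / 2 := by
  rw [tt_succ]
  have h0 := (tt_pos hs n).le
  have hs1 : 2 * s ≤ Real.sqrt ((n : ℝ) + 1) := by
    apply Real.le_sqrt_of_sq_le
    have h1 : s ^ 2 ≤ r ^ 2 := pow_le_pow_left₀ hs.le hsr 2
    have h2 : (4 * ((N : ℝ) + 1)) ≤ n := by exact_mod_cast hn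
    nlinarith
  have hsq : 0 < Real.sqrt ((n : ℝ) + 1) := Real.sqrt_pos.2 (by positivity)
  have : s / Real.sqrt ((n : ℝ) + 1) ≤ 1 / 2 := by
    rw [div_le_div_iff₀ hsq (by norm_num)]
    linarith
  nlinarith

lemma tt_far (hs : 0 < s) (hsr : s ≤ r) (hr2 : r ^ 2 ≤ N + 1) (m : ℕ) :
    tt s (8 * (N + 1) + m) ≤ tt s N * ((1 / 2) ^ (4 * (N + 1)) * (1 / 2) ^ m) := by
  have key : ∀ k, tt s (4 * (N + 1) + k) ≤ tt s N * (1 / 2) ^ k := by
    intro k
    induction k with
    | zero => simpa using tt_up hs hsr hr2 (n := 4 * (N + 1)) (by omega)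
    | succ k ih =>
      have := tt_far_step hs hsr hr2 (n := 4 * (N + 1) + k) (by omega)
      rw [pow_succ]
      have e : 4 * (N + 1) + (k + 1) = 4 * (N + 1) + k + 1 := by ring
      rw [e]
      linarith
  have := key (4 * (N + 1) + m)
  rw [pow_add] at this
  have e : 8 * (N + 1) + m = 4 * (N + 1) + (4 * (N + 1) + m) := by ring
  rw [e]
  exact this

lemma tt_down (hs : 0 < s) (hr : 0 < r) (hsr : Real.exp (-δ) * r ≤ s) (hN : (N : ℝ) ≤ r ^ 2) {k : ℕ}
    (hk : k ≤ N) :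
    tt s (N - k) ≤ Real.exp (δ * k - k * (k - 1) / (4 * N)) * tt s N := by
  induction k with
  | zero => simp
  | succ k ih =>
    have ih' := ih (by omega)
    have hNpos : (0 : ℝ) < N := by
      have : 0 < N := by omega
      exact_mod_cast this
    obtain ⟨n, hn⟩ : ∃ n, N - k = n + 1 := ⟨N - k - 1, by omega⟩
    have hn' : N - (k + 1) = n := by omega
    rw [hn']
    rw [hn, tt_succ] at ih'
    have hsq : 0 < Real.sqrt ((n : ℝ) + 1) := Real.sqrt_pos.2 (by positivity)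
    have hNk : (n : ℝ) + 1 = N - k := by
      have : n + 1 + k = N := by omega
      have : ((n + 1 + k : ℕ) : ℝ) = N := by exact_mod_cast this
      push_cast at this
      linarith
    -- √(n+1)/s ≤ exp(δ - k/(2N))
    have h1 : Real.sqrt ((n : ℝ) + 1) ≤ Real.exp (δ - k / (2 * N)) * s := by
      have h2 : Real.sqrt ((n : ℝ) + 1) ≤ Real.exp (- (k / (2 * N))) * r := by
        apply Real.sqrt_le_iff.2
        refine ⟨by positivity, ?_⟩
        rw [mul_pow, ← Real.exp_nat_mul, hNk]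
        have h3 : (N : ℝ) - k = (1 - k / N) * N := by field_simp
        have h4 : 1 - (k : ℝ) / N ≤ Real.exp (-(k / N)) := by
          have := Real.add_one_le_exp (-((k : ℝ) / N)); linarith
        have h5 : ((2 : ℕ) : ℝ) * -((k : ℝ) / (2 * N)) = -(k / N) := by
          push_cast; field_simp
        rw [h5, h3]
        exact mul_le_mul h4 hN hNpos.le (Real.exp_pos _).le
      calc Real.sqrt ((n : ℝ) + 1) ≤ Real.exp (- (k / (2 * N))) * r := h2
        _ = Real.exp (δ - k / (2 * N)) * (Real.exp (-δ) * r) := by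
            rw [← mul_assoc, ← Real.exp_add]; congr 2; ring
        _ ≤ _ := by gcongr
    have h6 : tt s n ≤ Real.exp (δ - k / (2 * N)) * (tt s n * (s / Real.sqrt ((n : ℝ) + 1))) := by
      have h0 := tt_pos hs n
      have : 1 ≤ Real.exp (δ - k / (2 * N)) * (s / Real.sqrt ((n : ℝ) + 1)) := by
        rw [← mul_div_assoc, le_div_iff₀ hsq]
        linarith
      calc tt s n = tt s n * 1 := (mul_one _).symm
        _ ≤ tt s n * (Real.exp (δ - k / (2 * N)) * (s / Real.sqrt ((n : ℝ) + 1))) := by gcongr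
        _ = _ := by ring
    refine h6.trans ?_
    calc Real.exp (δ - k / (2 * N)) * (tt s n * (s / Real.sqrt ((n : ℝ) + 1)))
        ≤ Real.exp (δ - k / (2 * N)) * (Real.exp (δ * k - k * (k - 1) / (4 * N)) * tt s N) := by
          gcongr
      _ = Real.exp (δ * (k + 1 : ℕ) - (k + 1 : ℕ) * ((k + 1 : ℕ) - 1) / (4 * N)) * tt s N := by
          rw [← mul_assoc, ← Real.exp_add]
          congr 2
          push_cast
          field_simp
          ring

end Pool.Agent.N581.Hole
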