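import Pool.Agent.N581.Hole.Gauss
import Pool.Agent.N581.Hole.Det

/-!
# The event on which the Gaussian entire function has no zero in a thin annulus
-/

open Filter Topology MeasureTheory ProbabilityTheory
open scoped ENNReal

namespace Pool.Agent.N581.Hole

/-- thresholds for the coefficients. -/
noncomputable def aa (δ : ℝ) (N W n : ℕ) : ℝ :=
  if n < 8 * (N + 1) then
    (if N ≤ n + W ∧ n < N then 1 / (4 * (8 * ((N : ℝ) + 1)) * Real.exp (δ * W))
      else 1 / (4 * (8 * ((N : ℝ) + 1))))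
  else 2 * (3 / 2) ^ (n - 8 * (N + 1))

lemma aa_pos (δ : ℝ) (N W n : ℕ) : 0 < aa δ N W n := by
  unfold aa; split_ifs <;> positivity

variable {r s δ : ℝ} {N W : ℕ}

lemma aa_near (hs : 0 < s) (hr : 0 < r) (hsr : s ≤ r) (hr2 : r ^ 2 ≤ N + 1)
    (hsr' : Real.exp (-δ) * r ≤ s) (hN : (N : ℝ) ≤ r ^ 2) (hδ : 0 ≤ δ) (hW : 4 * δ * N ≤ W)
    {n : ℕ} (hn : n ≠ N) (hn2 : n < 8 * (N + 1)) :
    aa δ N W n * tt s n ≤ 1 / (4 * (8 * ((N : ℝ) + 1))) * tt s N := by
  have h0 := tt_pos hs n
  unfold aa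
  rw [if_pos hn2]
  rcases lt_or_gt_of_ne hn with hlt | hgt
  · obtain ⟨k, hk⟩ : ∃ k, N = n + k := ⟨N - n, by omega⟩
    have hkN : k ≤ N := by omega
    have hd := tt_down hs hr hsr' hN hkN
    have e : N - k = n := by omega
    rw [e] at hd
    have hk1 : (1 : ℝ) ≤ k := by
      have : 1 ≤ k := by omega
      exact_mod_cast this
    have hNpos : (0 : ℝ) < N := by
      have : 0 < N := by omega
      exact_mod_cast this
    by_cases hw : N ≤ n + W
    · rw [if_pos ⟨hw, hlt⟩]
      have hkW : (k : ℝ) ≤ W := by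
        have : k ≤ W := by omega
        exact_mod_cast this
      have h1 : tt s n ≤ Real.exp (δ * W) * tt s N := by
        refine hd.trans ?_
        have := tt_pos hs N
        gcongr
        have : (0 : ℝ) ≤ k * (k - 1) / (4 * N) := by
          apply div_nonneg (mul_nonneg (by linarith) (by linarith)) (by positivity)
        nlinarith
      calc 1 / (4 * (8 * ((N : ℝ) + 1)) * Real.exp (δ * W)) * tt s n
          ≤ 1 / (4 * (8 * ((N : ℝ) + 1)) * Real.exp (δ * W)) * (Real.exp (δ * W) * tt s N) := by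
            gcongr
        _ = _ := by
            have := (Real.exp_pos (δ * W)).ne'
            field_simp
    · rw [if_neg (fun h => hw h.1)]
      have hkW : (W : ℝ) + 1 ≤ k := by
        have : W + 1 ≤ k := by omega
        exact_mod_cast this
      have h1 : tt s n ≤ tt s N := by
        refine hd.trans ?_
        have h2 := tt_pos hs N
        have h3 : Real.exp (δ * k - k * (k - 1) / (4 * N)) ≤ 1 := by
          rw [Real.exp_le_one_iff, sub_nonpos, le_div_iff₀ (by positivity)]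
          have : 4 * δ * N ≤ k - 1 := by linarith
          nlinarith
        nlinarith
      gcongr
  · rw [if_neg (by omega)]
    have h1 := tt_up hs hsr hr2 (n := n) (by omega)
    gcongr

lemma aa_far (hs : 0 < s) (hsr : s ≤ r) (hr2 : r ^ 2 ≤ N + 1) (m : ℕ) :
    aa δ N W (8 * (N + 1) + m) * tt s (8 * (N + 1) + m) ≤
      2 * (1 / 2) ^ (4 * (N + 1)) * tt s N * (3 / 4) ^ m := by
  unfold aa
  rw [if_neg (by omega)]
  have h := tt_far hs hsr hr2 m
  have e : 8 * (N + 1) + m - 8 * (N + 1) = m := by omega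
  rw [e]
  calc 2 * (3 / 2 : ℝ) ^ m * tt s (8 * (N + 1) + m)
      ≤ 2 * (3 / 2 : ℝ) ^ m * (tt s N * ((1 / 2) ^ (4 * (N + 1)) * (1 / 2) ^ m)) := by gcongr
    _ = 2 * (1 / 2) ^ (4 * (N + 1)) * tt s N * ((3 / 2) ^ m * (1 / 2) ^ m) := by ring
    _ = _ := by rw [← mul_pow]; norm_num

/-- The sum of the non-dominating terms is at most `3/4` of the dominating one. -/
lemma sum_others (hs : 0 < s) (hr : 0 < r) (hsr : s ≤ r) (hr2 : r ^ 2 ≤ N + 1)
    (hsr' : Real.exp (-δ) * r ≤ s) (hN : (N : ℝ) ≤ r ^ 2) (hδ : 0 ≤ δ) (hW : 4 * δ * N ≤ W) :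
    Summable (fun n => if n = N then 0 else aa δ N W n * tt s n) ∧
    ∑' n, (if n = N then 0 else aa δ N W n * tt s n) ≤ 3 / 4 * tt s N := by
  set v : ℕ → ℝ := fun n => if n = N then 0 else aa δ N W n * tt s n with hv
  have hv0 : ∀ n, 0 ≤ v n := by
    intro n
    simp only [hv]
    split_ifs
    · exact le_rfl
    · exact (mul_pos (aa_pos _ _ _ _) (tt_pos hs n)).le
  set M := 8 * (N + 1) with hM
  have hfar : ∀ m, v (m + M) ≤ 2 * (1 / 2) ^ (4 * (N + 1)) * tt s N * (3 / 4) ^ m := by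
    intro m
    simp only [hv]
    rw [if_neg (by omega), add_comm]
    exact aa_far hs hsr hr2 m
  have hgeo : Summable fun m : ℕ => 2 * (1 / 2 : ℝ) ^ (4 * (N + 1)) * tt s N * (3 / 4) ^ m :=
    (summable_geometric_of_lt_one (by norm_num) (by norm_num)).mul_left _
  have hsumM : Summable fun m => v (m + M) :=
    Summable.of_nonneg_of_le (fun m => hv0 _) hfar hgeo
  have hsum : Summable v := (summable_nat_add_iff M).1 hsumM
  refine ⟨hsum, ?_⟩
  rw [← hsum.sum_add_tsum_nat_add M]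
  have hN0 := tt_pos hs N
  have h1 : ∑ i ∈ Finset.range M, v i ≤ 1 / 4 * tt s N := by
    calc ∑ i ∈ Finset.range M, v i ≤ ∑ i ∈ Finset.range M, 1 / (4 * (8 * ((N : ℝ) + 1))) * tt s N := by
          refine Finset.sum_le_sum fun i hi => ?_
          simp only [hv]
          split_ifs with hiN
          · positivity
          · exact aa_near hs hr hsr hr2 hsr' hN hδ hW hiN (Finset.mem_range.1 hi)
      _ = 1 / 4 * tt s N := by
          rw [Finset.sum_const, Finset.card_range, nsmul_eq_mul, hM]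
          push_cast
          field_simp
  have h2 : ∑' m, v (m + M) ≤ 1 / 2 * tt s N := by
    calc ∑' m, v (m + M) ≤ ∑' m : ℕ, 2 * (1 / 2 : ℝ) ^ (4 * (N + 1)) * tt s N * (3 / 4) ^ m :=
          hsumM.tsum_le_tsum hfar hgeo
      _ = 2 * (1 / 2) ^ (4 * (N + 1)) * tt s N * 4 := by
          rw [tsum_mul_left, tsum_geometric_of_lt_one (by norm_num) (by norm_num)]
          norm_num
      _ ≤ 1 / 2 * tt s N := by
          have : (1 / 2 : ℝ) ^ (4 * (N + 1)) ≤ 1 / 16 := by
            calc (1 / 2 : ℝ) ^ (4 * (N + 1)) ≤ (1 / 2) ^ 4 :=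
                  pow_le_pow_of_le_one (by norm_num) (by norm_num) (by omega)
              _ = 1 / 16 := by norm_num
          nlinarith
  linarith

/-- the sets of allowed values. -/
def BB (δ : ℝ) (N W n : ℕ) : Set ℂ :=
  if n = N then {w | 1 ≤ ‖w‖} else {w | ‖w‖ ≤ aa δ N W n}

lemma measurableSet_BB (δ : ℝ) (N W n : ℕ) : MeasurableSet (BB δ N W n) := by
  unfold BB
  split_ifs
  · exact measurableSet_le measurable_const measurable_norm
  · exact measurableSet_le measurable_norm measurable_const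

/-- On the event, there is no zero in the annulus `e^{-δ} r ≤ |z| ≤ r`. -/
lemma gef_ne_zero {Ω : Type*} {ξ : ℕ → Ω → ℂ} {ω : Ω} (hω : ∀ n, ξ n ω ∈ BB δ N W n)
    (hr : 0 < r) (hr2 : r ^ 2 ≤ N + 1) (hN : (N : ℝ) ≤ r ^ 2) (hδ : 0 ≤ δ) (hW : 4 * δ * N ≤ W)
    {z : ℂ} (hz1 : Real.exp (-δ) * r ≤ ‖z‖) (hz2 : ‖z‖ ≤ r) : gef ξ ω z ≠ 0 := by
  have hs : 0 < ‖z‖ := lt_of_lt_of_le (by positivity) hz1
  obtain ⟨hsum, hle⟩ := sum_others hs hr hz2 hr2 hz1 hN hδ hW
  set g : ℕ → ℂ := fun n => ξ n ω * z ^ n / (Real.sqrt (n.factorial : ℝ) : ℂ) with hg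
  have hgn : ∀ n, ‖g n‖ = ‖ξ n ω‖ * tt ‖z‖ n := by
    intro n
    simp only [hg, tt]
    rw [norm_div, norm_mul, norm_pow, Complex.norm_real, Real.norm_of_nonneg (Real.sqrt_nonneg _),
      mul_div_assoc]
  have hite : ∀ n, ‖(if n = N then (0 : ℂ) else g n)‖ ≤
      (if n = N then 0 else aa δ N W n * tt ‖z‖ n) := by
    intro n
    split_ifs with h
    · simp
    · rw [hgn]
      have h1 := hω n
      unfold BB at h1
      rw [if_neg h] at h1
      exact mul_le_mul_of_nonneg_right h1 (tt_pos hs n).le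
  have hs1 : Summable fun n => ‖(if n = N then (0 : ℂ) else g n)‖ :=
    Summable.of_nonneg_of_le (fun _ => norm_nonneg _) hite hsum
  have hs2 : Summable g := by
    have h1 : Summable fun n => (if n = N then (0 : ℂ) else g n) := hs1.of_norm
    have h2 : Summable fun n => (if n = N then g n else (0 : ℂ)) := by
      apply summable_of_hasFiniteSupport
      refine (Set.finite_singleton N).subset fun n hn => ?_
      simp only [Function.mem_support, ne_eq, ite_eq_right_iff, Classical.not_imp] at hn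
      exact hn.1
    have h3 := h1.add h2
    refine h3.congr fun n => ?_
    split_ifs <;> simp
  have hsplit : gef ξ ω z = g N + ∑' n, (if n = N then (0 : ℂ) else g n) := by
    unfold gef
    exact hs2.tsum_eq_add_tsum_ite N
  have hrest : ‖∑' n, (if n = N then (0 : ℂ) else g n)‖ ≤ 3 / 4 * tt ‖z‖ N :=
    (norm_tsum_le_tsum_norm hs1).trans ((hs1.tsum_le_tsum hite hsum).trans hle)
  have hdom : tt ‖z‖ N ≤ ‖g N‖ := by
    rw [hgn]
    have h1 := hω N
    unfold BB at h1
    rw [if_pos rfl] at h1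
    have h1' : 1 ≤ ‖ξ N ω‖ := h1
    have := tt_pos hs N
    nlinarith
  intro h0
  rw [hsplit] at h0
  have h1 : ‖g N‖ = ‖∑' n, (if n = N then (0 : ℂ) else g n)‖ := by
    rw [← norm_neg, neg_eq_of_add_eq_zero_right h0]
  have := tt_pos hs N
  linarith

end Pool.Agent.N581.Hole
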