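import Mathlib

/-!
# Standard complex Gaussians and the Gaussian entire function
-/

open Filter Topology MeasureTheory ProbabilityTheory
open scoped ENNReal

namespace Pool.Agent.N581.Hole

/-- The standard complex Gaussian law: density `e^{-|w|²}/π` with respect to Lebesgue measure. -/
noncomputable def stdCG : Measure ℂ :=
  volume.withDensity fun w => ENNReal.ofReal (Real.exp (-‖w‖ ^ 2) / Real.pi)

/-- `ξ_0, ξ_1, …` are independent standard complex Gaussian random variables. -/
structure IsGaussianSeq {Ω : Type*} [MeasurableSpace Ω] (P : Measure Ω) (ξ : ℕ → Ω → ℂ) : Prop where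
  meas : ∀ n, Measurable (ξ n)
  indep : iIndepFun ξ P
  law : ∀ n, P.map (ξ n) = stdCG

/-- The Gaussian entire function `f(z) = ∑ ξ_n z^n / √(n!)`. -/
noncomputable def gef {Ω : Type*} (ξ : ℕ → Ω → ℂ) (ω : Ω) (z : ℂ) : ℂ :=
  ∑' n : ℕ, ξ n ω * z ^ n / (Real.sqrt (n.factorial : ℝ) : ℂ)

lemma measurable_dens : Measurable fun w : ℂ => ENNReal.ofReal (Real.exp (-‖w‖ ^ 2) / Real.pi) := by
  fun_prop

lemma integral_exp_norm : ∫ w : ℂ, Real.exp (-‖w‖ ^ 2) = Real.pi := by
  have := Complex.integral_rpow_mul_exp_neg_rpow (p := 2) (q := 0) (by norm_num) (by norm_num)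
  simpa using this

lemma integral_norm_exp : ∫ w : ℂ, ‖w‖ ^ 2 * Real.exp (-‖w‖ ^ 2) = Real.pi := by
  have := Complex.integral_rpow_mul_exp_neg_rpow (p := 2) (q := 2) (by norm_num) (by norm_num)
  have h2 : (2 + 2) / 2 = (1 : ℝ) + 1 := by norm_num
  rw [h2, Real.Gamma_add_one one_ne_zero, Real.Gamma_one] at this
  simpa using this

instance : IsProbabilityMeasure stdCG := by
  constructor
  unfold stdCG
  rw [withDensity_apply _ MeasurableSet.univ, Measure.restrict_univ]
  have hint : Integrable fun w : ℂ => Real.exp (-‖w‖ ^ 2) := by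
    by_contra h
    have := integral_undef h
    rw [integral_exp_norm] at this
    exact Real.pi_ne_zero this
  rw [← ofReal_integral_eq_lintegral_ofReal (hint.div_const _)
    (Eventually.of_forall fun w => by positivity), integral_div, integral_exp_norm,
    div_self Real.pi_ne_zero, ENNReal.ofReal_one]

/-- small ball lower bound. -/
lemma stdCG_closedBall {a : ℝ} (ha : 0 ≤ a) :
    ENNReal.ofReal (a ^ 2 * Real.exp (-a ^ 2)) ≤ stdCG {w | ‖w‖ ≤ a} := by
  have hset : {w : ℂ | ‖w‖ ≤ a} = Metric.closedBall 0 a := by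
    ext w; simp
  rw [hset]
  unfold stdCG
  rw [withDensity_apply _ measurableSet_closedBall]
  calc ENNReal.ofReal (a ^ 2 * Real.exp (-a ^ 2))
      = ∫⁻ _ in Metric.closedBall (0 : ℂ) a, ENNReal.ofReal (Real.exp (-a ^ 2) / Real.pi) := by
        rw [lintegral_const, Measure.restrict_apply MeasurableSet.univ, Set.univ_inter,
          Complex.volume_closedBall]
        rw [← ENNReal.ofReal_pow ha]
        have : (NNReal.pi : ℝ≥0∞) = ENNReal.ofReal Real.pi := by
          rw [← NNReal.coe_real_pi, ENNReal.ofReal_coe_nnreal]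
        rw [this, ← ENNReal.ofReal_mul (by positivity), ← ENNReal.ofReal_mul (by positivity)]
        congr 1
        field_simp
    _ ≤ _ := by
        refine setLIntegral_mono' measurableSet_closedBall fun w hw => ?_
        apply ENNReal.ofReal_le_ofReal
        apply div_le_div_of_nonneg_right _ Real.pi_pos.le
        apply Real.exp_le_exp.2
        have : ‖w‖ ≤ a := by simpa using hw
        have := pow_le_pow_left₀ (norm_nonneg w) this 2
        linarith

/-- tail bound. -/
lemma stdCG_tail {a : ℝ} (ha : 0 < a) :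
    stdCG {w | ‖w‖ ≤ a}ᶜ ≤ ENNReal.ofReal (1 / a ^ 2) := by
  have hmeas : MeasurableSet {w : ℂ | ‖w‖ ≤ a}ᶜ :=
    (measurableSet_le measurable_norm measurable_const).compl
  have hint : Integrable fun w : ℂ => ‖w‖ ^ 2 * Real.exp (-‖w‖ ^ 2) := by
    by_contra h
    have := integral_undef h
    rw [integral_norm_exp] at this
    exact Real.pi_ne_zero this
  unfold stdCG
  rw [withDensity_apply _ hmeas]
  calc ∫⁻ w in {w : ℂ | ‖w‖ ≤ a}ᶜ, ENNReal.ofReal (Real.exp (-‖w‖ ^ 2) / Real.pi)
      ≤ ∫⁻ w in {w : ℂ | ‖w‖ ≤ a}ᶜ,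
          ENNReal.ofReal (‖w‖ ^ 2 * Real.exp (-‖w‖ ^ 2) / (Real.pi * a ^ 2)) := by
        refine setLIntegral_mono' hmeas fun w hw => ?_
        apply ENNReal.ofReal_le_ofReal
        have hw' : a < ‖w‖ := by simpa using hw
        have h2 : a ^ 2 ≤ ‖w‖ ^ 2 := pow_le_pow_left₀ ha.le hw'.le 2
        rw [div_le_div_iff₀ Real.pi_pos (by positivity)]
        have := Real.exp_pos (-‖w‖ ^ 2)
        have hpi := Real.pi_pos
        calc Real.exp (-‖w‖ ^ 2) * (Real.pi * a ^ 2) ≤ Real.exp (-‖w‖ ^ 2) * (Real.pi * ‖w‖ ^ 2) := by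
              gcongr
          _ = ‖w‖ ^ 2 * Real.exp (-‖w‖ ^ 2) * Real.pi := by ring
    _ ≤ ∫⁻ w, ENNReal.ofReal (‖w‖ ^ 2 * Real.exp (-‖w‖ ^ 2) / (Real.pi * a ^ 2)) :=
        setLIntegral_le_lintegral _ _
    _ = ENNReal.ofReal (1 / a ^ 2) := by
        rw [← ofReal_integral_eq_lintegral_ofReal (hint.div_const _)
          (Eventually.of_forall fun w => by positivity), integral_div, integral_norm_exp]
        congr 1
        have := Real.pi_ne_zero
        field_simp

/-- a big value has positive probability. -/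
lemma stdCG_big : ENNReal.ofReal (3 * Real.exp (-4)) ≤ stdCG {w | 1 ≤ ‖w‖} := by
  have hset : Metric.closedBall (0 : ℂ) 2 \ Metric.ball 0 1 ⊆ {w : ℂ | 1 ≤ ‖w‖} := by
    rintro w ⟨_, h2⟩
    simpa using h2
  refine le_trans ?_ (measure_mono hset)
  have hms : MeasurableSet (Metric.closedBall (0 : ℂ) 2 \ Metric.ball 0 1) :=
    measurableSet_closedBall.diff measurableSet_ball
  unfold stdCG
  rw [withDensity_apply _ hms]
  have hpi : (NNReal.pi : ℝ≥0∞) = ENNReal.ofReal Real.pi := by
    rw [← NNReal.coe_real_pi, ENNReal.ofReal_coe_nnreal]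
  have hvol : volume (Metric.closedBall (0 : ℂ) 2 \ Metric.ball 0 1) =
      ENNReal.ofReal (3 * Real.pi) := by
    rw [measure_sdiff (Metric.ball_subset_closedBall.trans
      (Metric.closedBall_subset_closedBall (by norm_num)))
      measurableSet_ball.nullMeasurableSet (by finiteness), Complex.volume_closedBall,
      Complex.volume_ball, hpi]
    rw [ENNReal.ofReal_one, one_pow, one_mul, ← ENNReal.ofReal_pow (by norm_num),
      ← ENNReal.ofReal_mul (by norm_num), ← ENNReal.ofReal_sub _ Real.pi_pos.le]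
    congr 1; ring
  calc ENNReal.ofReal (3 * Real.exp (-4))
      = ∫⁻ _ in Metric.closedBall (0 : ℂ) 2 \ Metric.ball 0 1,
          ENNReal.ofReal (Real.exp (-4) / Real.pi) := by
        rw [lintegral_const, Measure.restrict_apply MeasurableSet.univ, Set.univ_inter, hvol,
          ← ENNReal.ofReal_mul (by positivity)]
        congr 1
        field_simp
    _ ≤ _ := by
        refine setLIntegral_mono' hms fun w hw => ?_
        apply ENNReal.ofReal_le_ofReal
        apply div_le_div_of_nonneg_right _ Real.pi_pos.le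
        apply Real.exp_le_exp.2
        have : ‖w‖ ≤ 2 := by simpa using hw.1
        have := pow_le_pow_left₀ (norm_nonneg w) this 2
        linarith

/-- such sequences exist (so nothing below is vacuous). -/
theorem exists_isGaussianSeq : ∃ (Ω : Type) (_ : MeasurableSpace Ω) (P : Measure Ω)
    (_ : IsProbabilityMeasure P) (ξ : ℕ → Ω → ℂ), IsGaussianSeq P ξ := by
  refine ⟨ℕ → ℂ, inferInstance, Measure.infinitePi fun _ => stdCG, inferInstance,
    fun n ω => ω n, fun n => measurable_pi_apply n, ?_, ?_⟩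
  · exact iIndepFun_infinitePi (X := fun _ ω => ω) (by fun_prop)
  · intro n
    exact (measurePreserving_eval_infinitePi (fun _ : ℕ => stdCG) n).map_eq

variable {Ω : Type*} [MeasurableSpace Ω] {P : Measure Ω} [IsProbabilityMeasure P] {ξ : ℕ → Ω → ℂ}

/-- lower bound for the probability that all the `ξ_n` lie in prescribed sets. -/
lemma le_prob_inter (h : IsGaussianSeq P ξ) (B : ℕ → Set ℂ) (hB : ∀ n, MeasurableSet (B n))
    (L : ℝ≥0∞) (M : ℕ) (hL : ∀ k, L ≤ ∏ n ∈ Finset.range (M + k), stdCG (B n)) :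
    L ≤ P {ω | ∀ n, ξ n ω ∈ B n} := by
  have h1 : ∀ m, P (⋂ n ∈ Finset.range m, ξ n ⁻¹' B n) = ∏ n ∈ Finset.range m, stdCG (B n) := by
    intro m
    rw [h.indep.measure_inter_preimage_eq_mul (Finset.range m) (fun n _ => hB n)]
    refine Finset.prod_congr rfl fun n _ => ?_
    rw [← h.law n, Measure.map_apply (h.meas n) (hB n)]
  set s : ℕ → Set Ω := fun k => ⋂ n ∈ Finset.range (M + k), ξ n ⁻¹' B n with hs
  have hanti : Antitone s := by
    intro a b hab
    apply Set.biInter_mono
    · intro x hx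
      simp only [Finset.coe_range, Set.mem_Iio] at hx ⊢
      simp only [Finset.mem_range] at *
      omega
    · intro _ _; exact le_rfl
  have hset : {ω | ∀ n, ξ n ω ∈ B n} = ⋂ k, s k := by
    ext ω
    simp only [Set.mem_ofPred_eq, hs, Set.mem_iInter, Finset.mem_range, Set.mem_preimage]
    constructor
    · intro hh k n _; exact hh n
    · intro hh n; exact hh (n + 1) n (by omega)
  rw [hset]
  have ht := tendsto_measure_iInter_atTop (μ := P) (s := s)
    (fun k => (MeasurableSet.biInter (Finset.countable_toSet _)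
      fun n _ => (h.meas n) (hB n)).nullMeasurableSet) hanti ⟨0, measure_ne_top _ _⟩
  refine ge_of_tendsto' ht fun k => ?_
  rw [Function.comp_apply]
  exact (hL k).trans (h1 _).ge

end Pool.Agent.N581.Hole
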