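import Pool.Agent.N581.Hole.Cap

/-!
# The thin half-annuli
-/

open Filter Topology Finset

namespace Pool.Agent.N581.Hole

/-- The thin closed half-annulus `{z : e^{-δ} ≤ |z| ≤ 1, Re z ≥ 0}`. -/
def halfAnnulus (δ : ℝ) : Set ℂ := {z | Real.exp (-δ) ≤ ‖z‖ ∧ ‖z‖ ≤ 1 ∧ 0 ≤ z.re}

lemma halfAnnulus_diam {δ : ℝ} : ∀ x ∈ halfAnnulus δ, ∀ y ∈ halfAnnulus δ, ‖x - y‖ ≤ 2 := by
  rintro x ⟨_, hx, _⟩ y ⟨_, hy, _⟩
  linarith [norm_sub_le x y]

/-- The points `e^{i(π j/n - π/2)}` on the half-circle. -/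
noncomputable def hpt (n : ℕ) (j : Fin n) : ℂ :=
  Complex.exp (((Real.pi * ((j : ℕ) : ℝ) / n - Real.pi / 2 : ℝ) : ℂ) * Complex.I)

lemma hpt_norm (n : ℕ) (j : Fin n) : ‖hpt n j‖ = 1 := Complex.norm_exp_ofReal_mul_I _

lemma hpt_mem {δ : ℝ} (hδ : 0 ≤ δ) (n : ℕ) (j : Fin n) : hpt n j ∈ halfAnnulus δ := by
  have hn : (0 : ℝ) < n := by exact_mod_cast (Nat.pos_of_ne_zero (by rintro rfl; exact j.elim0))
  refine ⟨?_, (hpt_norm n j).le, ?_⟩
  · rw [hpt_norm]; exact Real.exp_le_one_iff.2 (by linarith)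
  · unfold hpt
    rw [Complex.exp_ofReal_mul_I_re]
    apply Real.cos_nonneg_of_neg_pi_div_two_le_of_le
    · have : 0 ≤ Real.pi * ((j : ℕ) : ℝ) / n := by positivity
      linarith
    · have h1 : (((j : ℕ) : ℝ) / n) ≤ 1 := by
        rw [div_le_one hn]; exact_mod_cast j.2.le
      have : Real.pi * ((j : ℕ) : ℝ) / n ≤ Real.pi := by
        rw [mul_div_assoc]
        calc Real.pi * (((j : ℕ) : ℝ) / n) ≤ Real.pi * 1 :=
          mul_le_mul_of_nonneg_left h1 Real.pi_pos.le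
          _ = Real.pi := mul_one _
      linarith

/-- the `n`-th root of unity. -/
noncomputable def zt (n : ℕ) : ℂ := Complex.exp (2 * Real.pi * Complex.I / n)

lemma hpt_sq {n : ℕ} (j : Fin n) : hpt n j ^ 2 = - (zt n) ^ (j : ℕ) := by
  have hn : (n : ℂ) ≠ 0 := by
    have : n ≠ 0 := by rintro rfl; exact j.elim0
    exact_mod_cast this
  unfold hpt zt
  rw [← Complex.exp_nat_mul, ← Complex.exp_nat_mul]
  have : - Complex.exp (((j : ℕ) : ℂ) * (2 * Real.pi * Complex.I / n)) =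
      Complex.exp (((j : ℕ) : ℂ) * (2 * Real.pi * Complex.I / n) - Real.pi * Complex.I) := by
    rw [Complex.exp_sub, Complex.exp_pi_mul_I, div_neg, div_one]
  rw [this]
  congr 1
  push_cast
  field_simp

lemma zt_prim {n : ℕ} (hn : n ≠ 0) : IsPrimitiveRoot (zt n) n :=
  Complex.isPrimitiveRoot_exp n hn

lemma half_le {n : ℕ} (i j : Fin n) :
    ‖(zt n) ^ (i : ℕ) - (zt n) ^ (j : ℕ)‖ / 2 ≤ ‖hpt n i - hpt n j‖ := by
  have h1 : (zt n) ^ (i : ℕ) - (zt n) ^ (j : ℕ) = -((hpt n i - hpt n j) * (hpt n i + hpt n j)) := by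
    have h := hpt_sq i
    have h' := hpt_sq j
    linear_combination h - h'
  rw [h1, norm_neg, norm_mul]
  have h2 : ‖hpt n i + hpt n j‖ ≤ 2 := by
    have := norm_add_le (hpt n i) (hpt n j)
    rw [hpt_norm, hpt_norm] at this
    linarith
  nlinarith [norm_nonneg (hpt n i - hpt n j)]

/-- `∏_{j ≠ i} |ζ^i - ζ^j| = n`. -/
lemma prod_zt {n : ℕ} (i : Fin n) :
    ∏ j ∈ Finset.univ.erase i, ‖(zt n) ^ (i : ℕ) - (zt n) ^ (j : ℕ)‖ = n := by
  classical
  have hn : n ≠ 0 := by rintro rfl; exact i.elim0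
  have hp := zt_prim hn
  have hfac : (Polynomial.X ^ n - 1 : Polynomial ℂ) =
      ∏ j : Fin n, (Polynomial.X - Polynomial.C ((zt n) ^ (j : ℕ))) := by
    have := X_pow_sub_C_eq_prod hp (Nat.pos_of_ne_zero hn) (one_pow n)
    rw [Polynomial.C_1] at this
    rw [this, ← Fin.prod_univ_eq_prod_range
      (fun i => (Polynomial.X - Polynomial.C ((zt n) ^ i * 1) : Polynomial ℂ)) n]
    simp
  have hder := congrArg Polynomial.derivative hfac
  rw [Polynomial.derivative_prod_finset] at hder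
  have hev := congrArg (Polynomial.eval ((zt n) ^ (i : ℕ))) hder
  have hR : Polynomial.eval ((zt n) ^ (i : ℕ)) (∑ k : Fin n,
      (∏ j ∈ Finset.univ.erase k, (Polynomial.X - Polynomial.C ((zt n) ^ (j : ℕ)))) *
        Polynomial.derivative (Polynomial.X - Polynomial.C ((zt n) ^ (k : ℕ)))) =
      ∏ j ∈ Finset.univ.erase i, ((zt n) ^ (i : ℕ) - (zt n) ^ (j : ℕ)) := by
    rw [Polynomial.eval_finsetSum, Finset.sum_eq_single i]
    · rw [Polynomial.eval_mul, Polynomial.eval_prod, Polynomial.derivative_sub,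
        Polynomial.derivative_X, Polynomial.derivative_C, sub_zero, Polynomial.eval_one, mul_one]
      simp only [Polynomial.eval_sub, Polynomial.eval_X, Polynomial.eval_C]
    · intro k _ hk
      rw [Polynomial.eval_mul, Polynomial.eval_prod]
      rw [Finset.prod_eq_zero (i := i)]
      · simp
      · simp [Ne.symm hk]
      · simp
    · simp
  rw [hR] at hev
  rw [← norm_prod, ← hev]
  have h1 : ‖zt n‖ = 1 := by
    have := hp.pow_eq_one
    exact Complex.norm_eq_one_of_pow_eq_one this hn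
  rw [Polynomial.derivative_sub, Polynomial.derivative_one, sub_zero, Polynomial.derivative_X_pow]
  simp [h1]

lemma pairProd_hpt {n : ℕ} : (1 / 2 : ℝ) ^ (n * n - n) * (n : ℝ) ^ n ≤ pairProd (hpt n) := by
  classical
  have h1 : pairProd (fun j : Fin n => (zt n) ^ (j : ℕ)) = (n : ℝ) ^ n := by
    rw [pairProd_eq_iterated]
    simp_rw [prod_zt]
    simp
  rw [← h1]
  unfold pairProd
  have h2 : (1 / 2 : ℝ) ^ (n * n - n) = ∏ _p ∈ (Finset.univ : Finset (Fin n)).offDiag, (1/2 : ℝ) := by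
    rw [Finset.prod_const, Finset.offDiag_card, Finset.card_univ, Fintype.card_fin]
  rw [h2, ← Finset.prod_mul_distrib]
  refine Finset.prod_le_prod (fun _ _ => by positivity) fun p _ => ?_
  have := half_le p.1 p.2
  linarith

lemma half_le_nthDiam {δ : ℝ} (hδ : 0 ≤ δ) (n : ℕ) : 1 / 2 ≤ nthDiam (halfAnnulus δ) (n + 2) := by
  refine le_trans ?_ (pairProd_rpow_le_nthDiam (by norm_num : (0 : ℝ) ≤ 2) halfAnnulus_diam
    (hpt (n + 2)) (hpt_mem hδ _))
  have h1 : (1 / 2 : ℝ) ^ ((n + 2) * (n + 2) - (n + 2)) ≤ pairProd (hpt (n + 2)) := by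
    refine le_trans ?_ pairProd_hpt
    have : (1 : ℝ) ≤ ((n + 2 : ℕ) : ℝ) ^ (n + 2) := by
      apply one_le_pow₀
      push_cast
      have : (0 : ℝ) ≤ n := Nat.cast_nonneg n
      linarith
    nlinarith [pow_pos (by norm_num : (0 : ℝ) < 1 / 2) ((n + 2) * (n + 2) - (n + 2))]
  have h0 : (0 : ℝ) ≤ n := Nat.cast_nonneg n
  have h3 : (0 : ℝ) ≤ 1 / (((n + 2 : ℕ) : ℝ) * (((n + 2 : ℕ) : ℝ) - 1)) := by
    have : (0 : ℝ) ≤ ((n + 2 : ℕ) : ℝ) - 1 := by push_cast; linarith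
    positivity
  refine le_trans (le_of_eq ?_) (Real.rpow_le_rpow (by positivity) h1 h3)
  rw [← Real.rpow_natCast, ← Real.rpow_mul (by norm_num)]
  have h4 : (n + 2) * (n + 2) - (n + 2) = (n + 2) * (n + 1) := by
    have : (n + 2) * (n + 2) = (n + 2) * (n + 1) + (n + 2) := by ring
    omega
  have : ((((n + 2) * (n + 2) - (n + 2) : ℕ) : ℝ) *
      (1 / (((n + 2 : ℕ) : ℝ) * (((n + 2 : ℕ) : ℝ) - 1)))) = 1 := by
    rw [h4]
    push_cast
    have : (n : ℝ) + 2 ≠ 0 := by positivity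
    have h' : (n : ℝ) + 2 - 1 ≠ 0 := by
      intro h; linarith
    field_simp
    ring
  rw [this, Real.rpow_one]

/-- the half-annuli have a transfinite diameter, at least `1/2`. -/
theorem halfAnnulus_capacity {δ : ℝ} (hδ : 0 ≤ δ) :
    ∃ c, IsCapacity (halfAnnulus δ) c ∧ 1 / 2 ≤ c :=
  exists_isCapacity (by norm_num : (0 : ℝ) ≤ 2) halfAnnulus_diam (half_le_nthDiam hδ)

end Pool.Agent.N581.Hole
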