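import Pool.Agent.N581.Hole.Event

/-!
# Probability of the event
-/

open Filter Topology MeasureTheory ProbabilityTheory
open scoped ENNReal

namespace Pool.Agent.N581.Hole

/-- lower bounds for the probabilities of the single constraints. -/
noncomputable def ll (δ : ℝ) (N W n : ℕ) : ℝ :=
  if n < 8 * (N + 1) then
    (1 / (16 * (8 * ((N : ℝ) + 1)) ^ 2) * Real.exp (-1)) *
      ((if N ≤ n + W ∧ n < N then Real.exp (-(2 * δ * W)) else 1) *
        (if n = N then 3 * Real.exp (-4) else 1))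
  else 1 - 1 / (4 * (9 / 4) ^ (n - 8 * (N + 1)))

lemma ll_nonneg (δ : ℝ) (N W n : ℕ) : 0 ≤ ll δ N W n := by
  unfold ll
  split_ifs with h1 h2 h3 h3
  · positivity
  · positivity
  · positivity
  · positivity
  · have : (1 : ℝ) ≤ (9 / 4) ^ (n - 8 * (N + 1)) := one_le_pow₀ (by norm_num)
    have h4 : (1 : ℝ) / (4 * (9 / 4) ^ (n - 8 * (N + 1))) ≤ 1 := by
      rw [div_le_one (by positivity)]; linarith
    linarith

lemma ll_le (δ : ℝ) (hδ : 0 ≤ δ) (N W n : ℕ) :
    ENNReal.ofReal (ll δ N W n) ≤ stdCG (BB δ N W n) := by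
  have hN0 : (0 : ℝ) ≤ N := Nat.cast_nonneg N
  by_cases hnN : n = N
  · subst hnN
    unfold BB ll
    rw [if_pos rfl, if_pos (by omega), if_neg (by omega), if_pos rfl, one_mul]
    refine le_trans ?_ stdCG_big
    apply ENNReal.ofReal_le_ofReal
    have h1 : 1 / (16 * (8 * ((n : ℝ) + 1)) ^ 2) * Real.exp (-1) ≤ 1 := by
      have h2 : Real.exp (-1) ≤ 1 := Real.exp_le_one_iff.2 (by norm_num)
      have h3 : 1 / (16 * (8 * ((n : ℝ) + 1)) ^ 2) ≤ 1 := by
        rw [div_le_one (by positivity)]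
        nlinarith
      calc _ ≤ 1 * 1 := mul_le_mul h3 h2 (Real.exp_pos _).le zero_le_one
        _ = 1 := one_mul 1
    calc 1 / (16 * (8 * ((n : ℝ) + 1)) ^ 2) * Real.exp (-1) * (3 * Real.exp (-4))
        ≤ 1 * (3 * Real.exp (-4)) := by gcongr
      _ = _ := one_mul _
  · unfold BB ll
    rw [if_neg hnN, if_neg hnN, mul_one]
    by_cases hM : n < 8 * (N + 1)
    · rw [if_pos hM]
      refine le_trans ?_ (stdCG_closedBall (aa_pos δ N W n).le)
      apply ENNReal.ofReal_le_ofReal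
      have ha1 : aa δ N W n ≤ 1 := by
        unfold aa
        rw [if_pos hM]
        split_ifs with hw
        · rw [div_le_one (by positivity)]
          have : 1 ≤ Real.exp (δ * W) := Real.one_le_exp (by positivity)
          nlinarith
        · rw [div_le_one (by positivity)]
          nlinarith
      have ha0 := (aa_pos δ N W n).le
      have hexp : Real.exp (-1) ≤ Real.exp (-(aa δ N W n) ^ 2) := by
        apply Real.exp_le_exp.2
        nlinarith
      have hsq : 1 / (16 * (8 * ((N : ℝ) + 1)) ^ 2) *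
          (if N ≤ n + W ∧ n < N then Real.exp (-(2 * δ * W)) else 1) = (aa δ N W n) ^ 2 := by
        unfold aa
        rw [if_pos hM]
        split_ifs with hw
        · have h5 : Real.exp (-(2 * δ * W)) = 1 / (Real.exp (δ * W)) ^ 2 := by
            rw [Real.exp_neg, one_div, ← Real.exp_nat_mul]; congr 2; push_cast; ring
          rw [h5, div_mul_div_comm, one_mul, div_pow, one_pow]
          congr 1
          ring
        · rw [mul_one, div_pow, one_pow]; congr 1; ring
      calc _ = (1 / (16 * (8 * ((N : ℝ) + 1)) ^ 2) *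
          (if N ≤ n + W ∧ n < N then Real.exp (-(2 * δ * W)) else 1)) * Real.exp (-1) := by ring
        _ = (aa δ N W n) ^ 2 * Real.exp (-1) := by rw [hsq]
        _ ≤ _ := by gcongr
    · rw [if_neg hM]
      have ht := stdCG_tail (aa_pos δ N W n)
      have hms : MeasurableSet {w : ℂ | ‖w‖ ≤ aa δ N W n} :=
        measurableSet_le measurable_norm measurable_const
      have h1 : stdCG {w | ‖w‖ ≤ aa δ N W n} = 1 - stdCG {w | ‖w‖ ≤ aa δ N W n}ᶜ := by
        rw [← prob_compl_eq_one_sub hms.compl, compl_compl]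
      rw [h1]
      have h2 : (4 * (9 / 4 : ℝ) ^ (n - 8 * (N + 1))) = (aa δ N W n) ^ 2 := by
        unfold aa
        rw [if_neg hM, mul_pow, ← pow_mul, mul_comm _ 2, pow_mul]
        norm_num
      rw [h2, ENNReal.ofReal_sub _ (by positivity), ENNReal.ofReal_one]
      exact tsub_le_tsub_left ht 1

lemma one_sub_sum_le_prod {f : ℕ → ℝ} (hf0 : ∀ n, 0 ≤ f n) (hf1 : ∀ n, f n ≤ 1) (k : ℕ) :
    1 - ∑ m ∈ Finset.range k, f m ≤ ∏ m ∈ Finset.range k, (1 - f m) := by
  induction k with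
  | zero => simp
  | succ k ih =>
    rw [Finset.sum_range_succ, Finset.prod_range_succ]
    have h1 : ∏ m ∈ Finset.range k, (1 - f m) ≤ 1 := by
      apply Finset.prod_le_one
      · intro i _; linarith [hf1 i]
      · intro i _; linarith [hf0 i]
    have h2 : 0 ≤ ∏ m ∈ Finset.range k, (1 - f m) :=
      Finset.prod_nonneg fun i _ => by linarith [hf1 i]
    nlinarith [hf0 k, hf1 k]

/-- the total lower bound. -/
noncomputable def LL (δ : ℝ) (N W : ℕ) : ℝ :=
  (1 / (16 * (8 * ((N : ℝ) + 1)) ^ 2) * Real.exp (-1)) ^ (8 * (N + 1)) *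
    (Real.exp (-(2 * δ * W)) ^ W * (3 * Real.exp (-4))) * (1 / 2)

lemma LL_pos (δ : ℝ) (N W : ℕ) : 0 < LL δ N W := by unfold LL; positivity

lemma LL_le (δ : ℝ) (hδ : 0 ≤ δ) (N W k : ℕ) :
    LL δ N W ≤ ∏ n ∈ Finset.range (8 * (N + 1) + k), ll δ N W n := by
  rw [Finset.prod_range_add]
  unfold LL
  have hA : (1 / (16 * (8 * ((N : ℝ) + 1)) ^ 2) * Real.exp (-1)) ^ (8 * (N + 1)) *
      (Real.exp (-(2 * δ * W)) ^ W * (3 * Real.exp (-4))) ≤
      ∏ n ∈ Finset.range (8 * (N + 1)), ll δ N W n := by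
    have h1 : ∏ n ∈ Finset.range (8 * (N + 1)), ll δ N W n =
        ∏ n ∈ Finset.range (8 * (N + 1)), ((1 / (16 * (8 * ((N : ℝ) + 1)) ^ 2) * Real.exp (-1)) *
      ((if N ≤ n + W ∧ n < N then Real.exp (-(2 * δ * W)) else 1) *
        (if n = N then 3 * Real.exp (-4) else 1))) := by
      refine Finset.prod_congr rfl fun n hn => ?_
      unfold ll
      rw [if_pos (Finset.mem_range.1 hn)]
    rw [h1]
    have hc0 : 0 ≤ 1 / (16 * (8 * ((N : ℝ) + 1)) ^ 2) * Real.exp (-1) := by positivity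
    generalize 1 / (16 * (8 * ((N : ℝ) + 1)) ^ 2) * Real.exp (-1) = c at hc0 ⊢
    rw [Finset.prod_mul_distrib, Finset.prod_mul_distrib, Finset.prod_const, Finset.card_range,
      Finset.prod_ite_eq' (Finset.range (8 * (N + 1))) N (fun _ => 3 * Real.exp (-4)),
      if_pos (Finset.mem_range.2 (by omega)), Finset.prod_ite, Finset.prod_const_one, mul_one,
      Finset.prod_const]
    have hcard : (Finset.filter (fun n => N ≤ n + W ∧ n < N) (Finset.range (8 * (N + 1)))).card
        ≤ W := by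
      calc _ ≤ (Finset.Ico (N - W) N).card := by
            apply Finset.card_le_card
            intro n hn
            simp only [Finset.mem_filter, Finset.mem_range] at hn
            rw [Finset.mem_Ico]
            omega
        _ = N - (N - W) := Nat.card_Ico _ _
        _ ≤ W := by omega
    have hE1 : Real.exp (-(2 * δ * W)) ≤ 1 := Real.exp_le_one_iff.2 (by
      have : 0 ≤ 2 * δ * (W : ℝ) := by positivity
      linarith)
    have h5 := pow_le_pow_of_le_one (Real.exp_pos (-(2 * δ * W))).le hE1 hcard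
    gcongr
  have hB : (1 : ℝ) / 2 ≤ ∏ m ∈ Finset.range k, ll δ N W (8 * (N + 1) + m) := by
    have h1 : ∏ m ∈ Finset.range k, ll δ N W (8 * (N + 1) + m) =
        ∏ m ∈ Finset.range k, (1 - (1 / 4 : ℝ) * (4 / 9) ^ m) := by
      refine Finset.prod_congr rfl fun m _ => ?_
      unfold ll
      rw [if_neg (by omega)]
      have e : 8 * (N + 1) + m - 8 * (N + 1) = m := by omega
      rw [e, one_div, mul_inv, ← inv_pow]
      norm_num
    rw [h1]
    refine le_trans ?_ (one_sub_sum_le_prod (f := fun m => (1 / 4 : ℝ) * (4 / 9) ^ m)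
      (fun n => by positivity) (fun n => ?_) k)
    · rw [← Finset.mul_sum]
      have h2 : ∑ m ∈ Finset.range k, (4 / 9 : ℝ) ^ m ≤ 9 / 5 := by
        have h3 := (summable_geometric_of_lt_one (by norm_num : (0 : ℝ) ≤ 4 / 9)
          (by norm_num)).sum_le_tsum (Finset.range k) (fun i _ => by positivity)
        rw [tsum_geometric_of_lt_one (by norm_num) (by norm_num)] at h3
        refine h3.trans (le_of_eq (by norm_num))
      linarith
    · have : (4 / 9 : ℝ) ^ n ≤ 1 := pow_le_one₀ (by norm_num) (by norm_num)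
      linarith
  exact mul_le_mul hA hB (by norm_num) (Finset.prod_nonneg fun n _ => ll_nonneg _ _ _ _)

variable {Ω : Type*} [MeasurableSpace Ω] {P : Measure Ω} [IsProbabilityMeasure P] {ξ : ℕ → Ω → ℂ}

/-- lower bound for the hole probability of the annulus `e^{-δ} r ≤ |z| ≤ r`. -/
lemma LL_le_prob (h : IsGaussianSeq P ξ) {r δ : ℝ} {N W : ℕ}
    (hr : 0 < r) (hr2 : r ^ 2 ≤ N + 1) (hN : (N : ℝ) ≤ r ^ 2) (hδ : 0 ≤ δ) (hW : 4 * δ * N ≤ W) :
    LL δ N W ≤ P.real {ω | ∀ z : ℂ, Real.exp (-δ) * r ≤ ‖z‖ → ‖z‖ ≤ r → gef ξ ω z ≠ 0} := by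
  have h1 : ENNReal.ofReal (LL δ N W) ≤ P {ω | ∀ n, ξ n ω ∈ BB δ N W n} := by
    refine le_prob_inter h (BB δ N W) (measurableSet_BB δ N W) _ (8 * (N + 1)) fun k => ?_
    calc ENNReal.ofReal (LL δ N W)
        ≤ ENNReal.ofReal (∏ n ∈ Finset.range (8 * (N + 1) + k), ll δ N W n) :=
          ENNReal.ofReal_le_ofReal (LL_le δ hδ N W k)
      _ = ∏ n ∈ Finset.range (8 * (N + 1) + k), ENNReal.ofReal (ll δ N W n) :=
          ENNReal.ofReal_prod_of_nonneg fun n _ => ll_nonneg _ _ _ _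
      _ ≤ _ := Finset.prod_le_prod' fun n _ => ll_le δ hδ N W n
  have h2 : {ω | ∀ n, ξ n ω ∈ BB δ N W n} ⊆
      {ω | ∀ z : ℂ, Real.exp (-δ) * r ≤ ‖z‖ → ‖z‖ ≤ r → gef ξ ω z ≠ 0} :=
    fun ω hω z hz1 hz2 => gef_ne_zero hω hr hr2 hN hδ hW hz1 hz2
  have h3 := h1.trans (measure_mono h2)
  rw [Measure.real]
  exact (ENNReal.ofReal_le_iff_le_toReal (measure_ne_top _ _)).1 h3

end Pool.Agent.N581.Hole
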